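import Pool.Agent.QSB.StmtsE
import Pool.Agent.Helper58_QSN.ABO

/-!
# QSB, row RYO: the roots of `SO (p, p + d)` (uses the vectors `cv` of `Helper58_QSN/ABO.lean`)
-/

set_option autoImplicit false

namespace Pool.Agent.QSB.H21

open Matrix Finset Pool.Agent.QSX Pool.Agent.QSN Pool.Agent.QSB

variable {p d : ℕ}

theorem nrm {ρ : (datO p d).b →ₗ[ℝ] ℝ} (h : IsRt (datO p d) ρ) :
    ∃ i j : Fin (2 * p + d), (i : ℕ) < p ∧ i < j ∧ j < Fin.rev i ∧
      ∀ c : (datO p d).b, ρ c = (c.1 : Fin (2 * p + d) → ℝ) i - (c.1 : Fin (2 * p + d) → ℝ) j := by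
  obtain ⟨x, ⟨hxn, hx⟩, hx0⟩ := h
  have h1 : ∃ i j : Fin (2 * p + d), x i j ≠ 0 := by
    by_contra hcon
    push Not at hcon
    exact hx0 (by ext i j; exact hcon i j)
  obtain ⟨i, j, hij⟩ := h1
  obtain ⟨hx1, hx2, hx3⟩ := hxn
  have hlt : i < j := by
    by_contra h'
    exact hij (hx1 i j (not_lt.1 h'))
  have hw : ∀ c : (datO p d).b,
      ρ c = (c.1 : Fin (2 * p + d) → ℝ) i - (c.1 : Fin (2 * p + d) → ℝ) j := fun c =>
    (Pool.Agent.QSN.H58.wt_entry (Y := datO p d) hx hij c).symm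
  have hw' : ∀ c : (datO p d).b,
      ρ c = (c.1 : Fin (2 * p + d) → ℝ) (sg p d j) - (c.1 : Fin (2 * p + d) → ℝ) (sg p d i) := by
    intro c
    have e1 : (c.1 : Fin (2 * p + d) → ℝ) (sg p d i) = - (c.1 : Fin (2 * p + d) → ℝ) i := c.2 i
    have e2 : (c.1 : Fin (2 * p + d) → ℝ) (sg p d j) = - (c.1 : Fin (2 * p + d) → ℝ) j := c.2 j
    rw [hw c, e1, e2]
    ring
  have hnm : ¬ (Md p d i ∧ Md p d j) := fun hm => hij (hx3 i j hm.1 hm.2)
  have hne : ¬ (¬ Md p d i ∧ j = Fin.rev i) := by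
    rintro ⟨hm, rfl⟩
    have e := hx2 i (Fin.rev i)
    rw [sg_out hm, sg_out (fun h => hm (md_rev.1 h)), Fin.rev_rev] at e
    apply hij
    linarith
  have vi := Fin.val_rev i
  have vj := Fin.val_rev j
  have bi := i.2
  have bj := j.2
  rw [Fin.lt_def] at hlt
  by_cases c1 : (i : ℕ) < p
  · have hm : ¬ Md p d i := by unfold Md; omega
    rcases lt_trichotomy (j : ℕ) (Fin.rev i : Fin (2 * p + d)) with h2 | h2 | h2
    · exact ⟨i, j, c1, hlt, h2, hw⟩
    · exact absurd ⟨hm, Fin.ext h2⟩ hne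
    · have hmj : ¬ Md p d j := by unfold Md; omega
      rw [sg_out hm, sg_out hmj] at hw'
      refine ⟨Fin.rev j, Fin.rev i, by omega, by rw [Fin.lt_def]; omega, ?_, hw'⟩
      rw [Fin.rev_rev]
      exact h2
  · by_cases c2 : Md p d i
    · have hmj : ¬ Md p d j := fun h => hnm ⟨c2, h⟩
      have h3 : p + d ≤ (j : ℕ) := by
        unfold Md at c2 hmj
        omega
      rw [sg_mid c2, sg_out hmj] at hw'
      unfold Md at c2
      refine ⟨Fin.rev j, i, by omega, by rw [Fin.lt_def]; omega, ?_, hw'⟩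
      rw [Fin.rev_rev, Fin.lt_def]
      exact hlt
    · have hmj : ¬ Md p d j := by
        unfold Md at c2 ⊢
        omega
      rw [sg_out c2, sg_out hmj] at hw'
      unfold Md at c2
      refine ⟨Fin.rev j, Fin.rev i, by omega, by rw [Fin.lt_def]; omega, ?_, hw'⟩
      rw [Fin.rev_rev, Fin.lt_def]
      omega

theorem out {i : Fin (2 * p + d)} (h : (i : ℕ) < p) : ¬ Md p d i := by
  unfold Md
  omega

theorem fst {ρ : (datO p d).b →ₗ[ℝ] ℝ} (h : IsRt (datO p d) ρ) :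
    ∃ i : Fin (2 * p + d), ∃ hi : (i : ℕ) < p,
      ρ ⟨Pool.Agent.QSN.H58.cv i, Pool.Agent.QSN.H58.cv_mem (out hi)⟩ = 1 ∧
      ∀ (l : Fin (2 * p + d)) (hl : (l : ℕ) < p), l < i →
        ρ ⟨Pool.Agent.QSN.H58.cv l, Pool.Agent.QSN.H58.cv_mem (out hl)⟩ = 0 := by
  obtain ⟨i, j, hi, hij, hji, hw⟩ := nrm h
  rw [Fin.lt_def] at hij hji
  have vi := Fin.val_rev i
  have bi := i.2
  have bj := j.2
  refine ⟨i, hi, ?_, fun l hl hli => ?_⟩
  · rw [hw]
    show Pool.Agent.QSN.H58.cv i i - Pool.Agent.QSN.H58.cv i j = 1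
    unfold Pool.Agent.QSN.H58.cv
    rw [if_pos rfl, if_neg (fun h => by rw [h] at hij; omega),
      if_neg (fun h => by rw [h] at hji; omega)]
    norm_num
  · rw [hw]
    show Pool.Agent.QSN.H58.cv l i - Pool.Agent.QSN.H58.cv l j = 0
    rw [Fin.lt_def] at hli
    have vl := Fin.val_rev l
    unfold Pool.Agent.QSN.H58.cv
    rw [if_neg (fun h => by rw [h] at hli; omega),
      if_neg (fun h => by have := congrArg Fin.val h; omega),
      if_neg (fun h => by have := congrArg Fin.val h; omega),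
      if_neg (fun h => by have := congrArg Fin.val h; omega)]
    norm_num

theorem eq_one {ρ : (datO p d).b →ₗ[ℝ] ℝ} {c : ℝ} (h : IsRt (datO p d) ρ)
    (h' : IsRt (datO p d) (c • ρ)) : c = 1 := by
  obtain ⟨i, hi, h1, h2⟩ := fst h
  obtain ⟨i', hi', h1', h2'⟩ := fst h'
  rw [LinearMap.smul_apply, smul_eq_mul] at h1'
  rcases lt_trichotomy i i' with hlt | heq | hgt
  · have h3 := h2' i hi hlt
    rw [LinearMap.smul_apply, smul_eq_mul, h1, mul_one] at h3
    rw [h3, zero_mul] at h1'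
    norm_num at h1'
  · subst heq
    rw [h1, mul_one] at h1'
    exact h1'
  · rw [h2 i' hi' hgt, mul_zero] at h1'
    norm_num at h1'

theorem ryo : RyoStmt := by
  intro p d
  refine ⟨fun ρ c h h' => Or.inl (eq_one h h'), fun ρ h h' => ?_⟩
  have := eq_one h h'
  norm_num at this

end Pool.Agent.QSB.H21
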